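import Mathlib

open Set Filter Topology

namespace Pool.Agent.MP_abea68_an

section General

variable {X : Type*} [TopologicalSpace X]

/-- Iterated derived sets. -/
def D (X : Type*) [TopologicalSpace X] : ℕ → Set X
  | 0 => univ
  | n + 1 => derivedSet (D X n)

lemma D_closed [T1Space X] (n : ℕ) : IsClosed (D X n) := by
  cases n with
  | zero => exact isClosed_univ
  | succ n => exact isClosed_derivedSet _

lemma D_succ_subset [T1Space X] (n : ℕ) : D X (n + 1) ⊆ D X n :=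
  (isClosed_iff_derivedSet_subset _).1 (D_closed n)

lemma D_antitone [T1Space X] : Antitone (D X) := antitone_nat_of_succ_le D_succ_subset

/-- Indicator function of a clopen set. -/
noncomputable def chi (V : Set X) (hV : IsClopen V) : C(X, ℝ) :=
  ⟨V.indicator (fun _ => 1), hV.continuous_indicator continuous_const⟩

lemma chi_of_mem {V : Set X} (hV : IsClopen V) {z : X} (hz : z ∈ V) : chi V hV z = 1 := by
  simp [chi, hz]

lemma chi_of_notMem {V : Set X} (hV : IsClopen V) {z : X} (hz : z ∉ V) : chi V hV z = 0 := by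
  simp [chi, hz]

variable [CompactSpace X]

lemma norm_chi_le {V : Set X} (hV : IsClopen V) : ‖chi V hV‖ ≤ 1 := by
  rw [ContinuousMap.norm_le _ zero_le_one]
  intro z
  by_cases hz : z ∈ V
  · rw [chi_of_mem hV hz]; simp
  · rw [chi_of_notMem hV hz]; simp

lemma norm_chi {V : Set X} (hV : IsClopen V) (hne : V.Nonempty) : ‖chi V hV‖ = 1 := by
  apply le_antisymm (norm_chi_le hV)
  obtain ⟨z, hz⟩ := hne
  have := (chi V hV).norm_coe_le_norm z
  rw [chi_of_mem hV hz] at this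
  simpa using this

/-- Variation of a functional on a set. -/
noncomputable def tv (ν : C(X, ℝ) →L[ℝ] ℝ) (V : Set X) : ℝ :=
  sSup {t | ∃ f : C(X, ℝ), ‖f‖ ≤ 1 ∧ (∀ z ∉ V, f z = 0) ∧ ν f = t}

lemma tv_bdd (ν : C(X, ℝ) →L[ℝ] ℝ) (V : Set X) :
    BddAbove {t | ∃ f : C(X, ℝ), ‖f‖ ≤ 1 ∧ (∀ z ∉ V, f z = 0) ∧ ν f = t} := by
  refine ⟨‖ν‖, ?_⟩
  rintro t ⟨f, hf, -, rfl⟩
  calc ν f ≤ ‖ν f‖ := le_abs_self _
    _ ≤ ‖ν‖ * ‖f‖ := ν.le_opNorm f
    _ ≤ ‖ν‖ * 1 := by gcongr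
    _ = ‖ν‖ := mul_one _

lemma tv_nonneg (ν : C(X, ℝ) →L[ℝ] ℝ) (V : Set X) : 0 ≤ tv ν V := by
  apply le_csSup (tv_bdd ν V)
  exact ⟨0, by simp, by simp, by simp⟩

lemma tv_super (ν : C(X, ℝ) →L[ℝ] ℝ) (V₁ V₂ W : Set X) (h₁ : V₁ ⊆ W) (h₂ : V₂ ⊆ W)
    (hd : Disjoint V₁ V₂) : tv ν V₁ + tv ν V₂ ≤ tv ν W := by
  have hne : ∀ V : Set X, {t | ∃ f : C(X, ℝ), ‖f‖ ≤ 1 ∧ (∀ z ∉ V, f z = 0) ∧ ν f = t}.Nonempty :=
    fun V => ⟨0, 0, by simp, by simp, by simp⟩
  have key : ∀ t₁ ∈ {t | ∃ f : C(X, ℝ), ‖f‖ ≤ 1 ∧ (∀ z ∉ V₁, f z = 0) ∧ ν f = t},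
      ∀ t₂ ∈ {t | ∃ f : C(X, ℝ), ‖f‖ ≤ 1 ∧ (∀ z ∉ V₂, f z = 0) ∧ ν f = t},
      t₁ + t₂ ≤ tv ν W := by
    rintro _ ⟨f₁, hf₁, hs₁, rfl⟩ _ ⟨f₂, hf₂, hs₂, rfl⟩
    apply le_csSup (tv_bdd ν W)
    refine ⟨f₁ + f₂, ?_, ?_, by simp⟩
    · rw [ContinuousMap.norm_le _ zero_le_one]
      intro z
      by_cases hz : z ∈ V₁
      · have : z ∉ V₂ := fun h => (Set.disjoint_left.1 hd) hz h
        rw [ContinuousMap.add_apply, hs₂ z this, add_zero]
        exact (f₁.norm_coe_le_norm z).trans hf₁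
      · rw [ContinuousMap.add_apply, hs₁ z hz, zero_add]
        exact (f₂.norm_coe_le_norm z).trans hf₂
    · intro z hz
      rw [ContinuousMap.add_apply, hs₁ z (fun h => hz (h₁ h)), hs₂ z (fun h => hz (h₂ h)), add_zero]
  have h1 : ∀ t₂ ∈ {t | ∃ f : C(X, ℝ), ‖f‖ ≤ 1 ∧ (∀ z ∉ V₂, f z = 0) ∧ ν f = t},
      tv ν V₁ ≤ tv ν W - t₂ := by
    intro t₂ ht₂
    apply csSup_le (hne V₁)
    intro t₁ ht₁
    linarith [key t₁ ht₁ t₂ ht₂]
  have h2 : tv ν V₂ ≤ tv ν W - tv ν V₁ := by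
    apply csSup_le (hne V₂)
    intro t₂ ht₂
    linarith [h1 t₂ ht₂]
  linarith

lemma abs_le_tv (ν : C(X, ℝ) →L[ℝ] ℝ) (V : Set X) (hV : IsClopen V) :
    |ν (chi V hV)| ≤ tv ν V := by
  rw [abs_le]
  constructor
  · have : ν (-(chi V hV)) ≤ tv ν V := by
      apply le_csSup (tv_bdd ν V)
      refine ⟨-(chi V hV), by rw [norm_neg]; exact norm_chi_le hV, ?_, rfl⟩
      intro z hz
      rw [ContinuousMap.neg_apply, chi_of_notMem hV hz, neg_zero]
    rw [map_neg] at this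
    linarith
  · apply le_csSup (tv_bdd ν V)
    exact ⟨chi V hV, norm_chi_le hV, fun z hz => chi_of_notMem hV hz, rfl⟩

lemma kill [T2Space X] [TotallyDisconnectedSpace X] {ι : Type*} (F : Finset ι)
    (ν : ι → (C(X, ℝ) →L[ℝ] ℝ)) (ε : ℝ) (hε : 0 < ε) (V : Set X) (hV : IsClopen V) (j : ℕ)
    (hj : (V ∩ D X (j + 1)).Nonempty) :
    ∃ (V' : Set X) (hV' : IsClopen V'), V' ⊆ V ∧ (V' ∩ D X j).Nonempty ∧
      ∀ i ∈ F, |ν i (chi V' hV')| < ε := by
  obtain ⟨x, hxV, hx⟩ := hj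
  set Φ : Set X → ℝ := fun W => ∑ i ∈ F, tv (ν i) W with hΦ
  have hΦ0 : ∀ W, 0 ≤ Φ W := fun W => Finset.sum_nonneg (fun i _ => tv_nonneg _ _)
  set I : Set ℝ := {t | ∃ W : Set X, IsClopen W ∧ x ∈ W ∧ W ⊆ V ∧ Φ W = t} with hI
  have hIne : I.Nonempty := ⟨Φ V, V, hV, hxV, subset_rfl, rfl⟩
  have hIb : BddBelow I := ⟨0, by rintro _ ⟨W, -, -, -, rfl⟩; exact hΦ0 W⟩
  obtain ⟨t, ⟨W, hW, hxW, hWV, rfl⟩, hWlt⟩ := exists_lt_of_csInf_lt hIne
    (show sInf I < sInf I + ε by linarith)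
  -- a point of `D j` near `x`
  have hacc : AccPt x (𝓟 (D X j)) := hx
  rw [accPt_iff_nhds] at hacc
  obtain ⟨y, ⟨hyW, hyD⟩, hyx⟩ := hacc W (hW.isOpen.mem_nhds hxW)
  have hopen : IsOpen (W \ {x}) := hW.isOpen.sdiff isClosed_singleton
  obtain ⟨V', hV', hyV', hV'sub⟩ := compact_exists_isClopen_in_isOpen hopen
    (show y ∈ W \ {x} from ⟨hyW, hyx⟩)
  have hxV' : x ∉ V' := fun h => (hV'sub h).2 rfl
  have hWV' : V' ⊆ W := fun z hz => (hV'sub hz).1
  have h1 : sInf I ≤ Φ (W \ V') := csInf_le hIb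
    ⟨W \ V', hW.diff hV', ⟨hxW, hxV'⟩, sdiff_subset.trans hWV, rfl⟩
  have h2 : Φ V' + Φ (W \ V') ≤ Φ W := by
    simp only [hΦ]
    rw [← Finset.sum_add_distrib]
    apply Finset.sum_le_sum
    intro i _
    exact tv_super (ν i) V' (W \ V') W hWV' sdiff_subset disjoint_sdiff_right
  refine ⟨V', hV', hWV'.trans hWV, ⟨y, hyV', hyD⟩, ?_⟩
  intro i hi
  calc |ν i (chi V' hV')| ≤ tv (ν i) V' := abs_le_tv _ _ _
    _ ≤ Φ V' := Finset.single_le_sum (f := fun i => tv (ν i) V') (fun i _ => tv_nonneg _ _) hi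
    _ < ε := by linarith

end General

section Chain

variable {X L : Type*} [TopologicalSpace X] [CompactSpace X] [T2Space X]
  [TotallyDisconnectedSpace X] [TopologicalSpace L] [CompactSpace L] [T2Space L]

/-- Evaluation at `y` after `S`. -/
noncomputable def evS (S : C(X, ℝ) →L[ℝ] C(L, ℝ)) (y : L) : C(X, ℝ) →L[ℝ] ℝ :=
  (ContinuousMap.evalCLM ℝ y).comp S

lemma evS_apply (S : C(X, ℝ) →L[ℝ] C(L, ℝ)) (y : L) (f : C(X, ℝ)) : evS S y f = S f y := rfl

lemma finite_top (Z : Set L) (hZ : IsClosed Z) (q : ℕ) (h : Z ∩ D L (q + 1) = ∅) :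
    (Z ∩ D L q).Finite := by
  by_contra hinf
  have hcomp : IsCompact (Z ∩ D L q) := (hZ.inter (D_closed q)).isCompact
  obtain ⟨x, hx, hacc⟩ := Set.Infinite.exists_accPt_of_subset_isCompact hinf hcomp subset_rfl
  have : x ∈ D L (q + 1) := hacc.mono (principal_mono.2 inter_subset_right)
  have : x ∈ Z ∩ D L (q + 1) := ⟨hx.1, this⟩
  rw [h] at this
  exact this

lemma chain (hX : ∀ n, (D X n).Nonempty) (S : C(X, ℝ) →L[ℝ] C(L, ℝ)) (Z₀ : Set L)
    (hZ₀ : IsClosed Z₀) (m : ℕ) (hm : Z₀ ∩ D L m = ∅) (ε : ℝ) (hε : 0 < ε) (N : ℕ) :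
    ∀ M : ℕ, ∃ (V : Set X), IsClopen V ∧ (V ∩ D X M).Nonempty ∧ ∃ x : C(X, ℝ),
      (∀ z ∈ V, x z = N) ∧ ∃ Z : ℕ → Set L, (∀ k, IsClosed (Z k)) ∧ Z 0 = Z₀ ∧
        (∀ k q, k + q = m → Z k ∩ D L q = ∅) ∧
        ∀ k, ∀ y ∈ Z₀, y ∉ Z (k + 1) → |S x y| ≤ N * ε + k * ‖S‖ := by
  induction N with
  | zero =>
    intro M
    refine ⟨univ, isClopen_univ, by simpa using hX M, 0, by simp,
      fun k => if k = 0 then Z₀ else ∅, ?_, by simp, ?_, ?_⟩
    · intro k
      dsimp only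
      split_ifs
      · exact hZ₀
      · exact isClosed_empty
    · intro k q hkq
      dsimp only
      split_ifs with h
      · rw [h, zero_add] at hkq
        rw [hkq]; exact hm
      · simp
    · intro k y _ _
      simp only [map_zero, ContinuousMap.zero_apply, abs_zero, Nat.cast_zero, zero_mul, zero_add]
      positivity
  | succ N ih =>
    intro M
    obtain ⟨V, hV, hVM, x, hx, Z, hZc, hZ0, hZD, hZb⟩ := ih (M + 1)
    -- the finite set to be killed
    have hfin : (⋃ k ∈ Finset.range m, Z k ∩ D L (m - 1 - k)).Finite := by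
      apply Set.Finite.biUnion (Finset.finite_toSet _)
      intro k hk
      have hk' : k < m := by simpa using hk
      apply finite_top _ (hZc k)
      apply hZD
      omega
    obtain ⟨V', hV', hV'V, hV'M, hkill⟩ := kill hfin.toFinset (fun y => evS S y) ε hε V hV M hVM
    set A : Set L := {y | ε ≤ |S (chi V' hV') y|} with hA
    have hAc : IsClosed A := isClosed_le continuous_const (S (chi V' hV')).continuous.abs
    refine ⟨V', hV', hV'M, x + chi V' hV', ?_, fun k => Nat.casesOn k Z₀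
      (fun k => Z (k + 1) ∪ (Z k ∩ A)), ?_, rfl, ?_, ?_⟩
    · intro z hz
      rw [ContinuousMap.add_apply, hx z (hV'V hz), chi_of_mem hV' hz]
      push_cast; ring
    · intro k
      cases k with
      | zero => exact hZ₀
      | succ k => exact (hZc (k + 1)).union ((hZc k).inter hAc)
    · intro k q hkq
      cases k with
      | zero =>
        dsimp only
        rw [zero_add] at hkq
        rw [hkq]; exact hm
      | succ k =>
        dsimp only
        rw [union_inter_distrib_right, hZD (k + 1) q hkq, empty_union]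
        rw [Set.eq_empty_iff_forall_notMem]
        rintro y ⟨⟨hyZ, hyA⟩, hyD⟩
        have hy : y ∈ hfin.toFinset := by
          rw [Set.Finite.mem_toFinset, mem_iUnion₂]
          refine ⟨k, by simp; omega, hyZ, ?_⟩
          have : m - 1 - k = q := by omega
          rw [this]; exact hyD
        have := hkill y hy
        rw [evS_apply] at this
        exact absurd hyA (not_le.2 this)
    · intro k y hy hyZ
      dsimp only at hyZ
      have hyZ1 : y ∉ Z (k + 1) := fun h => hyZ (Or.inl h)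
      have hyZ2 : ¬ (y ∈ Z k ∧ y ∈ A) := fun h => hyZ (Or.inr h)
      rw [map_add, ContinuousMap.add_apply]
      have hSn : |S (chi V' hV') y| ≤ ‖S‖ := by
        calc |S (chi V' hV') y| ≤ ‖S (chi V' hV')‖ := (S (chi V' hV')).norm_coe_le_norm y
          _ ≤ ‖S‖ * ‖chi V' hV'‖ := S.le_opNorm _
          _ ≤ ‖S‖ * 1 := by gcongr; exact norm_chi_le hV'
          _ = ‖S‖ := mul_one _
      refine (abs_add_le _ _).trans ?_
      push_cast
      by_cases hyA : y ∈ A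
      · -- then y ∉ Z k, so k ≥ 1
        have hyk : y ∉ Z k := fun h => hyZ2 ⟨h, hyA⟩
        cases k with
        | zero => rw [hZ0] at hyk; exact absurd hy hyk
        | succ k =>
          have := hZb k y hy hyk
          push_cast
          linarith
      · have h1 := hZb k y hy hyZ1
        have h2 : |S (chi V' hV') y| < ε := not_le.1 hyA
        linarith

lemma not_bounded_below (hX : ∀ n, (D X n).Nonempty) (S : C(X, ℝ) →L[ℝ] C(L, ℝ)) (Z₀ : Set L)
    (hZ₀ : IsClosed Z₀) (m : ℕ) (hm : Z₀ ∩ D L m = ∅) (δ : ℝ) (hδ : 0 < δ) :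
    ∃ x : C(X, ℝ), x ≠ 0 ∧ ∀ y ∈ Z₀, |S x y| < δ * ‖x‖ := by
  obtain ⟨N, hN⟩ := exists_nat_gt (2 * m * ‖S‖ / δ)
  have hN0 : 0 < N + 1 := Nat.succ_pos _
  obtain ⟨V, hV, ⟨z, hzV, -⟩, x, hx, Z, hZc, hZ0, hZD, hZb⟩ :=
    chain hX S Z₀ hZ₀ m hm (δ / 2) (by positivity) (N + 1) 0
  have hxz : ((N + 1 : ℕ) : ℝ) ≤ ‖x‖ := by
    have := x.norm_coe_le_norm z
    rw [hx z hzV, Real.norm_of_nonneg (by positivity)] at this
    exact this
  have hxpos : 0 < ‖x‖ := lt_of_lt_of_le (by positivity) hxz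
  refine ⟨x, norm_pos_iff.1 hxpos, ?_⟩
  intro y hy
  cases m with
  | zero =>
    exfalso
    have : y ∈ Z₀ ∩ D L 0 := ⟨hy, mem_univ _⟩
    rw [hm] at this
    exact this
  | succ m =>
    have hyZ : y ∉ Z (m + 1) := by
      intro h
      have : y ∈ Z (m + 1) ∩ D L 0 := ⟨h, mem_univ _⟩
      rw [hZD (m + 1) 0 (by omega)] at this
      exact this
    have h1 := hZb m y hy hyZ
    rw [div_lt_iff₀ hδ] at hN
    push_cast at hN h1 hxz
    have hSnn : 0 ≤ ‖S‖ := S.opNorm_nonneg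
    have h3 : δ * (N + 1) ≤ δ * ‖x‖ := by gcongr
    nlinarith

/-- The general theorem. -/
theorem no_spr (hX : ∀ n, (D X n).Nonempty) (hL : (⋂ n, D L n).Finite)
    (T : C(X, ℝ) →L[ℝ] C(L, ℝ)) (c : ℝ) (hc : 0 < c) (hT : ∀ f, c * ‖f‖ ≤ ‖T f‖) (C : ℝ)
    (hC : ∀ f g : C(X, ℝ), min ‖T f - T g‖ ‖T f + T g‖ ≤ C * ‖|T f| - |T g|‖) : False := by
  set C' := max C 1 with hC'
  have hC'pos : 0 < C' := lt_of_lt_of_le one_pos (le_max_right _ _)
  set δ := c / C' with hδ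
  have hδpos : 0 < δ := div_pos hc hC'pos
  -- choose V' killing the finitely many top points
  obtain ⟨V', hV', -, ⟨z, hz, -⟩, hkill⟩ := kill hL.toFinset (fun y => evS T y) δ hδpos univ
    isClopen_univ 0 (by simpa using hX 1)
  set u := chi V' hV' with hu
  have hunorm : ‖u‖ = 1 := norm_chi hV' ⟨z, hz⟩
  set Y : Set L := {y | δ ≤ |T u y|} with hY
  have hYc : IsClosed Y := isClosed_le continuous_const (T u).continuous.abs
  obtain ⟨m, hm⟩ : ∃ m, Y ∩ D L m = ∅ := by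
    apply hYc.isCompact.elim_directed_family_closed
    · exact fun i => D_closed i
    · rw [Set.eq_empty_iff_forall_notMem]
      rintro y ⟨hyY, hyD⟩
      have := hkill y (by rw [Set.Finite.mem_toFinset]; exact hyD)
      rw [evS_apply] at this
      exact absurd hyY (not_le.2 this)
    · exact (D_antitone (X := L)).directed_ge
  obtain ⟨x, hx0, hx⟩ := not_bounded_below hX T Y hYc m hm δ hδpos
  have hxpos : 0 < ‖x‖ := norm_pos_iff.2 hx0
  set v : C(X, ℝ) := (‖x‖⁻¹) • x with hv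
  have hvnorm : ‖v‖ = 1 := by
    rw [hv, norm_smul, norm_inv, norm_norm, inv_mul_cancel₀ hxpos.ne']
  have hvY : ∀ y ∈ Y, |T v y| < δ := by
    intro y hy
    rw [hv, map_smul, ContinuousMap.smul_apply, smul_eq_mul, abs_mul, abs_inv, abs_norm,
      inv_mul_lt_iff₀ hxpos, mul_comm]
    exact hx y hy
  -- apply SPR to `u + v`, `u - v`
  have h := hC (u + v) (u - v)
  have e1 : T (u + v) - T (u - v) = (2 : ℝ) • T v := by
    rw [map_add, map_sub]; module
  have e2 : T (u + v) + T (u - v) = (2 : ℝ) • T u := by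
    rw [map_add, map_sub]; module
  rw [e1, e2, norm_smul, norm_smul] at h
  have hlow : 2 * c ≤ min (‖(2 : ℝ)‖ * ‖T v‖) (‖(2 : ℝ)‖ * ‖T u‖) := by
    have h1 := hT u
    have h2 := hT v
    rw [hunorm] at h1
    rw [hvnorm] at h2
    rw [Real.norm_of_nonneg (by norm_num : (0 : ℝ) ≤ 2)]
    apply le_min <;> linarith
  have hup : ‖|T (u + v)| - |T (u - v)|‖ < 2 * δ := by
    rw [ContinuousMap.norm_lt_iff _ (by positivity)]
    intro y
    rw [ContinuousMap.sub_apply, ContinuousMap.abs_apply, ContinuousMap.abs_apply, map_add, map_sub,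
      ContinuousMap.add_apply, ContinuousMap.sub_apply, Real.norm_eq_abs]
    have hmin : |T u y| < δ ∨ |T v y| < δ := by
      by_cases hy : y ∈ Y
      · right; exact hvY y hy
      · left; exact not_le.1 hy
    rcases hmin with h | h
    · calc |(|T u y + T v y| - |T u y - T v y|)|
          = |(|T u y + T v y| - |T v y - T u y|)| := by rw [abs_sub_comm (T u y)]
        _ ≤ |(T u y + T v y) - (T v y - T u y)| := abs_abs_sub_abs_le _ _
        _ = 2 * |T u y| := by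
            rw [show (T u y + T v y) - (T v y - T u y) = 2 * T u y by ring, abs_mul]; norm_num
        _ < 2 * δ := by linarith
    · calc |(|T u y + T v y| - |T u y - T v y|)|
          ≤ |(T u y + T v y) - (T u y - T v y)| := abs_abs_sub_abs_le _ _
        _ = 2 * |T v y| := by
            rw [show (T u y + T v y) - (T u y - T v y) = 2 * T v y by ring, abs_mul]; norm_num
        _ < 2 * δ := by linarith
  have hfinal : 2 * c < 2 * c := by
    calc 2 * c ≤ C * ‖|T (u + v)| - |T (u - v)|‖ := hlow.trans h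
      _ ≤ C' * ‖|T (u + v)| - |T (u - v)|‖ := by
          gcongr; exact le_max_left _ _
      _ < C' * (2 * δ) := by gcongr
      _ = 2 * c := by rw [hδ]; field_simp
  exact lt_irrefl _ hfinal

end Chain

end Pool.Agent.MP_abea68_an
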